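import Mathlib

/-!
# MP_2568f3_co : the degree-sequence implication fails

We disprove the implication asked about in Q1: already for `k = 3` and every `n ≥ 6` there are
subgraphs `F₁, F₂, F₃` of `K_{n,n}` satisfying the hypothesis on the numbers of edges for which no
choice of distinct vertices satisfies the conclusion on the degrees.
The degree matrix of the example is

    1  0  0  0 ... 0
    n  2  1  1 ... 1
    n  6  3  3 ... 3
-/

namespace Pool.Agent.Results.MP_2568f3_co.Counterexample

open Finset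

/-- The non-decreasing rearrangement of a finite sequence of natural numbers. -/
def rearr {k : ℕ} (c : Fin k → ℕ) : Fin k → ℕ := c ∘ Tuple.sort c

/-- The sum of the first `j` terms of the non-decreasing rearrangement of `c`. -/
def sumFirst {k : ℕ} (c : Fin k → ℕ) (j : ℕ) : ℕ :=
  ∑ i ∈ univ.filter (fun i : Fin k => (i : ℕ) < j), rearr c i

/-- The degree in the edge set `F ⊆ U × V` of the vertex `v` of the side `V` (both sides are
`Fin n`; an edge is a pair `(u, v)` with `u ∈ U`, `v ∈ V`). -/
def degV {n : ℕ} (F : Finset (Fin n × Fin n)) (v : Fin n) : ℕ :=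
  (F.filter (fun e => e.2 = v)).card

lemma rearr_mono {k : ℕ} (c : Fin k → ℕ) : Monotone (rearr c) := Tuple.monotone_sort c

lemma sumFirst_three {c : Fin 3 → ℕ} : sumFirst c 3 = c 0 + c 1 + c 2 := by
  have h : (univ.filter (fun i : Fin 3 => (i : ℕ) < 3)) = univ := by decide
  unfold sumFirst rearr
  rw [h]
  have := Equiv.sum_comp (Tuple.sort c) c
  simp only [Function.comp_apply]
  rw [this, Fin.sum_univ_three]

lemma rearr_two_ge {c : Fin 3 → ℕ} (i : Fin 3) : c i ≤ rearr c 2 := by
  have h := rearr_mono c (a := (Tuple.sort c).symm i) (b := 2) (by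
    have := ((Tuple.sort c).symm i).is_lt
    rw [Fin.le_def]
    simp
    omega)
  simpa [rearr] using h

lemma rearr_zero_le {c : Fin 3 → ℕ} (i : Fin 3) : rearr c 0 ≤ c i := by
  have h := rearr_mono c (a := 0) (b := (Tuple.sort c).symm i) (Fin.zero_le _)
  simpa [rearr] using h

lemma sumFirst_one {c : Fin 3 → ℕ} : sumFirst c 1 = rearr c 0 := by
  have h : (univ.filter (fun i : Fin 3 => (i : ℕ) < 1)) = {0} := by decide
  unfold sumFirst
  rw [h, sum_singleton]

lemma sumFirst_two_add {c : Fin 3 → ℕ} : sumFirst c 2 + rearr c 2 = c 0 + c 1 + c 2 := by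
  have h : (univ.filter (fun i : Fin 3 => (i : ℕ) < 2)) = {0, 1} := by decide
  have h3 := sumFirst_three (c := c)
  have h' : (univ.filter (fun i : Fin 3 => (i : ℕ) < 3)) = univ := by decide
  unfold sumFirst at *
  rw [h, sum_pair (by decide)]
  rw [h', Fin.sum_univ_three] at h3
  omega

lemma exists_rearr (c : Fin 3 → ℕ) (j : Fin 3) : ∃ i, rearr c j = c i :=
  ⟨Tuple.sort c j, rfl⟩

/-- The degree matrix of the example. -/
def A (n : ℕ) (i : Fin 3) (v : ℕ) : ℕ :=
  if i = 0 then (if v = 0 then 1 else 0)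
  else if i = 1 then (if v = 0 then n else if v = 1 then 2 else 1)
  else (if v = 0 then n else if v = 1 then 6 else 3)

/-- The example. -/
def Fex (n : ℕ) (i : Fin 3) : Finset (Fin n × Fin n) :=
  univ.filter (fun e => (e.1 : ℕ) < A n i e.2)

lemma A_le {n : ℕ} (hn : 6 ≤ n) (i : Fin 3) (v : ℕ) : A n i v ≤ n := by
  unfold A
  split_ifs <;> omega

lemma degV_Fex {n : ℕ} (hn : 6 ≤ n) (i : Fin 3) (v : Fin n) : degV (Fex n i) v = A n i v := by
  unfold degV Fex
  rw [filter_filter]
  have : (univ.filter (fun e : Fin n × Fin n => (e.1 : ℕ) < A n i e.2 ∧ e.2 = v))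
      = (univ.filter (fun a : Fin n => (a : ℕ) < A n i v)) ×ˢ {v} := by
    ext ⟨a, b⟩
    simp only [mem_filter, mem_univ, true_and, mem_product, mem_singleton]
    constructor
    · rintro ⟨h1, rfl⟩
      exact ⟨h1, rfl⟩
    · rintro ⟨h1, rfl⟩
      exact ⟨h1, rfl⟩
  rw [this, card_product, card_singleton, mul_one]
  have h2 := A_le hn i v
  rw [Fin.card_filter_val_lt]
  omega

lemma card_eq_sum_degV {n : ℕ} (F : Finset (Fin n × Fin n)) : F.card = ∑ v, degV F v := by
  unfold degV
  exact card_eq_sum_card_fiberwise (fun _ _ => mem_univ _)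

lemma sum_A {n : ℕ} (hn : 6 ≤ n) (i : Fin 3) : ∑ v : Fin n, A n i v =
    if i = 0 then 1 else if i = 1 then 2 * n else 4 * n := by
  obtain ⟨m, rfl⟩ : ∃ m, n = m + 2 := ⟨n - 2, by omega⟩
  rw [Fin.sum_univ_succ, Fin.sum_univ_succ]
  have h1 : ∀ x : Fin m, A (m + 2) i ((x.succ.succ : Fin (m + 2)) : ℕ) =
      if i = 0 then 0 else if i = 1 then 1 else 3 := by
    intro x
    simp [A]
  simp only [h1, sum_const, card_univ, Fintype.card_fin, smul_eq_mul]
  fin_cases i <;> simp [A] <;> omega

lemma card_Fex {n : ℕ} (hn : 6 ≤ n) (i : Fin 3) : (Fex n i).card =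
    if i = 0 then 1 else if i = 1 then 2 * n else 4 * n := by
  rw [card_eq_sum_degV, ← sum_A hn i]
  exact sum_congr rfl (fun v _ => degV_Fex hn i v)

/-- For `k = 3` and every `n ≥ 6` the implication fails. -/
theorem fails (n : ℕ) (hn : 6 ≤ n) :
    ∃ F : Fin 3 → Finset (Fin n × Fin n),
      (∀ j : ℕ, 1 ≤ j → j ≤ 3 → j * (j - 1) * n < sumFirst (fun i => (F i).card) j) ∧
      ∀ u : Fin 3 → Fin n, Function.Injective u →
        ∃ j : ℕ, 1 ≤ j ∧ j ≤ 3 ∧ sumFirst (fun i => degV (F i) (u i)) j ≤ j * (j - 1) := by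
  refine ⟨Fex n, ?_, ?_⟩
  · set c : Fin 3 → ℕ := fun i => (Fex n i).card with hc
    have c0 : c 0 = 1 := by simp [hc, card_Fex hn]
    have c1 : c 1 = 2 * n := by simp [hc, card_Fex hn]
    have c2 : c 2 = 4 * n := by simp [hc, card_Fex hn]
    intro j h1 h3
    interval_cases j
    · rw [sumFirst_one]
      obtain ⟨i, hi⟩ := exists_rearr c 0
      rw [hi]
      fin_cases i
      · simp only [Fin.zero_eta]; omega
      · simp only [Fin.mk_one]; omega
      · simp only [Fin.reduceFinMk]; omega
    · have h := sumFirst_two_add (c := c)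
      obtain ⟨i, hi⟩ := exists_rearr c 2
      rw [hi] at h
      have hle : c i ≤ 4 * n := by
        fin_cases i
        · simp only [Fin.zero_eta]; omega
        · simp only [Fin.mk_one]; omega
        · simp only [Fin.reduceFinMk]; omega
      omega
    · rw [sumFirst_three]
      omega
  · intro u hu
    by_contra hcon
    push Not at hcon
    set c : Fin 3 → ℕ := fun i => degV (Fex n i) (u i) with hc
    have d : ∀ i, c i = A n i (u i) := fun i => degV_Fex hn i (u i)
    have H1 := hcon 1 le_rfl (by norm_num)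
    have H2 := hcon 2 (by norm_num) (by norm_num)
    have H3 := hcon 3 (by norm_num) le_rfl
    rw [sumFirst_one] at H1
    rw [sumFirst_three] at H3
    have T := sumFirst_two_add (c := c)
    have G2 := rearr_two_ge (c := c) 2
    have L0 := rearr_zero_le (c := c) 0
    have u01 : ((u 0 : Fin n) : ℕ) ≠ ((u 1 : Fin n) : ℕ) := by
      intro h
      exact absurd (hu (Fin.ext h)) (by decide)
    have u02 : ((u 0 : Fin n) : ℕ) ≠ ((u 2 : Fin n) : ℕ) := by
      intro h
      exact absurd (hu (Fin.ext h)) (by decide)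
    have u12 : ((u 1 : Fin n) : ℕ) ≠ ((u 2 : Fin n) : ℕ) := by
      intro h
      exact absurd (hu (Fin.ext h)) (by decide)
    have e0 := d 0
    have e1 := d 1
    have e2 := d 2
    simp only [A, if_true, one_ne_zero, if_false, show (2 : Fin 3) ≠ 0 by decide,
      show (2 : Fin 3) ≠ 1 by decide] at e0 e1 e2
    split_ifs at e0 e1 e2 <;> omega

/-- **Negative answer to Q1.** The implication (hypothesis on the numbers of edges implies existence
of distinct vertices of `V` with the inequality for the degrees) is false. -/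
theorem result :
    ¬ ∀ k n : ℕ, 1 ≤ k → 1 ≤ n → ∀ F : Fin k → Finset (Fin n × Fin n),
      (∀ j : ℕ, 1 ≤ j → j ≤ k → j * (j - 1) * n < sumFirst (fun i => (F i).card) j) →
      ∃ u : Fin k → Fin n, Function.Injective u ∧
        ∀ j : ℕ, 1 ≤ j → j ≤ k → j * (j - 1) < sumFirst (fun i => degV (F i) (u i)) j := by
  intro h
  obtain ⟨F, h1, h2⟩ := fails 6 le_rfl
  obtain ⟨u, hu, hj⟩ := h 3 6 (by norm_num) (by norm_num) F h1
  obtain ⟨j, j1, j3, hlt⟩ := h2 u hu
  exact absurd (hj j j1 j3) (not_lt.mpr hlt)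

end Pool.Agent.Results.MP_2568f3_co.Counterexample
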